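import Pool.Agent.Lib.MP_dee342_nt.Ar.Main
import Pool.Agent.Lib.MP_dee342_nt.Ar4.Old2
import Pool.Agent.Lib.MP_dee342_nt.Ar5.Cor

/-!
An integer cycle of the `3x+1` or `5x+1` map cannot be cut into few blocks, each a part with
periodic parities followed by a free part that climbs less than the length of the periodic part.
-/

set_option autoImplicit false

namespace Pool.Agent.Results.MP_dee342_nt.AscendingRuns

open Pool.Agent.Lib.MP_dee342_nt Function
open scoped Finset

/-- For `a = 3` or `5` and all `K` there is `C` such that, if a period of a cycle is cut into `M`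
blocks, the minimal period `p` satisfies `log p ≤ log V + C ((J + 1) M) ^ (27 / 28)`. -/
theorem result (a K : ℕ) (ha : a = 3 ∨ a = 5) :
    ∃ C : ℝ, ∀ (V J M : ℕ) (x : ℤ) (u : ℕ → ℕ), 0 < M → u 0 = 0 → (T a)^[u M] x = x →
      (∀ i < M, PerBlock V K J (fun j => (T a)^[j] x) (u i) (u (i + 1))) →
      Real.log (minimalPeriod (T a) x) ≤ Real.log V + C * ((J + 1) * M : ℝ) ^ (27 / 28 : ℝ) :=
  (Ar.mainT (Ar.odd35 ha) (by omega) K).imp fun _ h => h.2

/-! The statements below are not the hand-in. -/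

/-- A consequence of `result`: the parity word of a period is a concatenation of `M` words, each
with a period at most `V`. -/
theorem words (a : ℕ) (ha : a = 3 ∨ a = 5) :
    ∃ C : ℝ, ∀ (V M : ℕ) (x : ℤ) (u : ℕ → ℕ), 0 < M → u 0 = 0 → (T a)^[u M] x = x →
      (∀ i < M, u i < u (i + 1) ∧ ∃ v, 0 < v ∧ v ≤ V ∧
        ∀ j, u i ≤ j → j + v < u (i + 1) → (T a)^[j + v] x % 2 = (T a)^[j] x % 2) →
      Real.log (minimalPeriod (T a) x) ≤ Real.log V + C * (M : ℝ) ^ (27 / 28 : ℝ) :=
  Ar.words_of_per (Ar.odd35 ha) (by omega) (result a _ ha)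

/-- A consequence of `result`: blocks of the sequence of odd terms with an ascending run. -/
theorem blocks (a V K : ℕ) (ha : a = 3 ∨ a = 5) :
    ∃ C : ℝ, ∀ (J M : ℕ) (y : ℤ) (u : ℕ → ℕ), Odd y → 0 < M → u 0 = 0 → (syr a)^[u M] y = y →
      (∀ i < M, Block a V K J (fun j => (syr a)^[j] y) (fun j => syrE a ((syr a)^[j] y))
        (u i) (u (i + 1))) →
      Real.log (minimalPeriod (T a) y) ≤ C * ((J + 1) * M : ℝ) ^ (27 / 28 : ℝ) :=
  Ar.blocks_of_per (Ar.odd35 ha) (by omega) (result a K ha)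

/-- A consequence of `blocks`: single steps and short pieces that end at a least point. -/
theorem descents (a : ℕ) (ha : a = 3 ∨ a = 5) :
    ∃ C : ℝ, ∀ (K M : ℕ) (y : ℤ) (u : ℕ → ℕ), Odd y → 0 < M → u 0 = 0 → (syr a)^[u M] y = y →
      (∀ i < M, u (i + 1) = u i + 1 ∨ Desc K (fun j => (syr a)^[j] y) (u i) (u (i + 1))) →
      Real.log (minimalPeriod (T a) y) ≤
        C * ((K + 1) * (pieces a (fun j => syrE a ((syr a)^[j] y)) u M : ℝ) + 1) ^ (27 / 28 : ℝ) :=
  Ar.old_of_blocks (Ar.odd35 ha) (by omega) (blocks a 1 _ ha)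

/-- The case of descents made of descending steps only: `m` counts the ascending steps whose
exponent differs from the exponent of the next step. -/
theorem runs (a : ℕ) (ha : a = 3 ∨ a = 5) :
    ∃ C : ℝ, ∀ y ∈ periodicPts (T a), Odd y →
      Real.log (minimalPeriod (T a) y) ≤
        C * ((#{i ∈ Finset.range (minimalPeriod (syr a) y) | 2 ^ syrE a ((syr a)^[i] y) < a ∧
          syrE a ((syr a)^[i + 1] y) ≠ syrE a ((syr a)^[i] y)} : ℝ) + 1) ^ (27 / 28 : ℝ) :=
  (Ar.runs a (Ar.odd35 ha) (by omega)).imp fun _ h => h.2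

/-- The `m`-cycle form: `d` is the number of odd terms followed by an even term. -/
theorem m_cycles (a : ℕ) (ha : a = 3 ∨ a = 5) :
    ∃ C : ℝ, ∀ y ∈ periodicPts (T a), Odd y →
      Real.log (minimalPeriod (T a) y) ≤
        C * (2 * (#{i ∈ Finset.range (minimalPeriod (syr a) y) | 2 ≤ syrE a ((syr a)^[i] y)} : ℝ)
          + 1) ^ (27 / 28 : ℝ) := by
  have ha3 : 3 ≤ a := by omega
  replace ha := Ar.odd35 ha
  obtain ⟨C, h0, hC⟩ := Ar.runs a ha ha3
  refine ⟨C, fun y h hy => (hC y h hy).trans (mul_le_mul_of_nonneg_left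
    (Real.rpow_le_rpow (by positivity) (add_le_add_left ?_ 1) (by norm_num)) h0)⟩
  exact_mod_cast Ar.JJ_le_two (a := a) (fun i => syrE a ((syr a)^[i] y))
    (fun i => (Ar.syr_step ha ha3 (Ar.syr_iter ha ha3 hy i).1).2.1)
    (by rw [iterate_minimalPeriod]; rfl)

/-- For `3x+1`: the number of local maxima of the sequence of odd terms, in absolute value. -/
theorem odd_maxima :
    ∃ C : ℝ, ∀ y ∈ periodicPts (T 3), Odd y →
      Real.log (minimalPeriod (T 3) y) ≤
        C * ((#{i ∈ Finset.range (minimalPeriod (syr 3) y) | |(syr 3)^[i] y| < |(syr 3)^[i + 1] y| ∧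
          |(syr 3)^[i + 2] y| < |(syr 3)^[i + 1] y|} : ℝ) + 1) ^ (27 / 28 : ℝ) := by
  have ha : Odd 3 := by decide
  obtain ⟨C, h0, hC⟩ := Ar.runs 3 ha le_rfl
  refine ⟨C, fun y h hy => (hC y h hy).trans (mul_le_mul_of_nonneg_left
    (Real.rpow_le_rpow (by positivity) (add_le_add_left ?_ 1) (by norm_num)) h0)⟩
  refine Nat.cast_le.2 (Finset.card_le_card fun i hi => ?_)
  obtain ⟨h1, h2, h3⟩ := Finset.mem_filter.1 hi
  have o := fun j => (Ar.syr_iter ha le_rfl hy j).1
  have s := fun j => Ar.syr_step ha le_rfl (o j)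
  refine Finset.mem_filter.2 ⟨h1, Ar.end_three (s i).2.1 (s (i + 1)).2.1 (o i) (o (i + 1))
    (o (i + 2)) ?_ ?_ h2 h3⟩
  · rw [iterate_succ_apply']
    exact (s i).2.2.1
  · rw [iterate_succ_apply' _ (i + 1)]
    exact (s (i + 1)).2.2.1

end Pool.Agent.Results.MP_dee342_nt.AscendingRuns
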