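import Pool.Agent.Lib.MP_dee342_nt.Au.RMain

/-!
A set of integers that is automatic in some base and closed under the `ax+1` map (`a = 3` or `5`)
contains, on each side of zero, either every integer prime to `a` or only finitely many cycles.
-/

set_option autoImplicit false

namespace Pool.Agent.Results.MP_dee342_nt.AutomaticSets

open Pool.Agent.Lib.MP_dee342_nt

theorem result (a : ℕ) (ha : a = 3 ∨ a = 5) (b : ℕ) (hb : 2 ≤ b) (S : Set ℤ)
    (hS : Automatic b S) (hT : ∀ x ∈ S, T a x ∈ S) (e : ℤ) (he : e = 1 ∨ e = -1) :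
    (∀ m : ℤ, 0 < e * m → ¬ (a : ℤ) ∣ m → m ∈ S) ∨
      {x | x ∈ S ∧ 0 < e * x ∧ x ∈ Function.periodicPts (T a)}.Finite :=
  (Au.mainG ha hb hS hT he).imp id fun h => h.1

/-! The statements below are not the hand-in; they come from it and from its proof. -/

/-- The map has finitely many periodic points if and only if they form an automatic set. -/
theorem finite_iff_automatic (a : ℕ) (ha : a = 3 ∨ a = 5) (b : ℕ) (hb : 2 ≤ b) :
    (Function.periodicPts (T a)).Finite ↔
      Automatic b (Function.periodicPts (T a)) :=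
  Au.finite_iff ha hb

/-- If `m` and `y` are prime to `a`, have the same sign and their orbits never meet (for example
points of two different cycles), the integers whose orbit contains `m` do not form an automatic
set. -/
theorem basin_not_automatic (a : ℕ) (ha : a = 3 ∨ a = 5) (b : ℕ) (hb : 2 ≤ b) (e : ℤ)
    (he : e = 1 ∨ e = -1) (m y : ℤ) (hm : 0 < e * m) (hma : ¬ (a : ℤ) ∣ m) (hy : 0 < e * y)
    (hya : ¬ (a : ℤ) ∣ y) (hym : ∀ i j, (T a)^[i] y ≠ (T a)^[j] m) :
    ¬ Automatic b {n | ∃ j, (T a)^[j] n = m} :=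
  Au.basin ha hb he hm hma hy hya hym

/-- The map has finitely many periodic points if and only if some relation that contains its steps
and is closed under one more step (a transition invariant) has finitely many diagonal points. -/
theorem finite_iff_invariant (a : ℕ) (_ha : a = 3 ∨ a = 5) :
    (Function.periodicPts (T a)).Finite ↔ ∃ R : ℤ → ℤ → Prop,
      (∀ x, R (T a x) x) ∧ (∀ x y, R y x → R (T a y) x) ∧ {x | R x x}.Finite :=
  Au.finite_iff_rel _

/-- No such relation is automatic: if the pairs in `R` have a finite `b`-kernel, then `R` relates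
every integer prime to `a` to all large `z` of a residue class, and has infinitely many diagonal
points. -/
theorem invariant_not_automatic (a : ℕ) (ha : a = 3 ∨ a = 5) (b : ℕ) (hb : 2 ≤ b) (e : ℤ)
    (he : e = 1 ∨ e = -1) (R : ℤ → ℤ → Prop)
    (hR : {A : Set (ℤ × ℤ) | ∃ (k : ℕ) (r s : ℤ), 0 ≤ r ∧ r < (b : ℤ) ^ k ∧ 0 ≤ s ∧
      s < (b : ℤ) ^ k ∧ A = {p | R ((b : ℤ) ^ k * p.1 + r) ((b : ℤ) ^ k * p.2 + s)}}.Finite)
    (h1 : ∀ x, 0 < e * x → R (T a x) x) (hT : ∀ x y, R y x → R (T a y) x) :
    (∃ (n : ℕ) (M : ℤ), ∀ z : ℤ, M ≤ e * z → 2 ^ n ∣ ((a : ℤ) - 2) * z + 1 →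
      ∀ m, 0 < e * m → ¬ (a : ℤ) ∣ m → R m z) ∧ {x | R x x}.Infinite :=
  ⟨Au.rel_main ha hb hR he h1 hT, Au.rel_diag ha hb hR he h1 hT⟩

end Pool.Agent.Results.MP_dee342_nt.AutomaticSets
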