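import Pool.Agent.Lib.MP_dee342_nt.Ex.Main
import Pool.Agent.Lib.MP_dee342_nt.Iv.Phase

/-!
Cycles of the `3x+1` map on the integers: at most `C N ^ 0.9405` cycles are reached from
`[-N, N]`, and all other cycles together attract at most `C x N ^ (-0.0595)` integers of
`[-x, x]`, for all `x, N ≥ 1`.
-/

set_option autoImplicit false

namespace Pool.Agent.Results.MP_dee342_nt.Basins

open Pool.Agent.Lib.MP_dee342_nt

theorem result : ∃ C : ℝ, ∀ N : ℝ, 1 ≤ N →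
    ((Function.periodicOrbit (T 3) '' {p ∈ Function.periodicPts (T 3) |
        ∃ y : ℤ, |(y : ℝ)| ≤ N ∧ ∃ i, (T 3)^[i] y = p}).ncard : ℝ) ≤ C * N ^ (1881 / 2000 : ℝ) ∧
    ∀ x : ℝ, 1 ≤ x →
      ({n : ℤ | |(n : ℝ)| ≤ x ∧ ∃ j, (T 3)^[j] n ∈ Function.periodicPts (T 3) ∧
        ∀ y : ℤ, |(y : ℝ)| ≤ N → ∀ i, (T 3)^[i] y ≠ (T 3)^[j] n}.ncard : ℝ) ≤
      C * x * N ^ (-(119 / 2000) : ℝ) := by
  rw [show (1881 / 2000 : ℝ) = 0.9405 by norm_num, show (119 / 2000 : ℝ) = 0.0595 by norm_num]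
  exact Ex.cycles

/-- The first bound in a stronger form: the orbits of the integers of any interval of length `2 N`
merge with those of few periodic points. -/
theorem phases : ∃ C : ℝ, ∀ N : ℝ, 1 ≤ N → ∀ (c : ℤ) (Q : Finset ℤ),
    (∀ p ∈ Q, p ∈ Function.periodicPts (T 3) ∧
        ∃ y : ℤ, |(y : ℝ) - c| ≤ N ∧ ∃ i, (T 3)^[i] y = (T 3)^[i] p) →
      (Q.card : ℝ) ≤ C * N ^ (1881 / 2000 : ℝ) := by
  rw [show (1881 / 2000 : ℝ) = 0.9405 by norm_num]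
  exact Iv.phases

/-- Few cycles are reached from any interval of length `2 N`, however far out it lies. -/
theorem cycles_reached : ∃ C : ℝ, ∀ N : ℝ, 1 ≤ N → ∀ c : ℤ,
    ((Function.periodicOrbit (T 3) '' {p ∈ Function.periodicPts (T 3) |
        ∃ y : ℤ, |(y : ℝ) - c| ≤ N ∧ ∃ i, (T 3)^[i] y = p}).ncard : ℝ) ≤
      C * N ^ (1881 / 2000 : ℝ) :=
  phases.imp fun _ h N hN c => Iv.cycles_of_phases (T 3) (h N hN c)

/-- Few periodic points lie in any interval of length `2 N`. -/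
theorem periodic_count : ∃ C : ℝ, ∀ N : ℝ, 1 ≤ N → ∀ (c : ℤ) (Q : Finset ℤ),
    (∀ p ∈ Q, p ∈ Function.periodicPts (T 3) ∧ |(p : ℝ) - c| ≤ N) →
      (Q.card : ℝ) ≤ C * N ^ (1881 / 2000 : ℝ) :=
  phases.imp fun _ h N hN c Q hQ => h N hN c Q fun p hp => ⟨(hQ p hp).1, p, (hQ p hp).2, 0, rfl⟩

/-- The earlier form, with an unspecified saving over the entropy exponent `0.94995…`. -/
theorem entropy_form : ∃ δ > 0, ∃ C : ℝ, ∀ N : ℝ, 1 ≤ N →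
    ((Function.periodicOrbit (T 3) '' {p ∈ Function.periodicPts (T 3) |
        ∃ y : ℤ, |(y : ℝ)| ≤ N ∧ ∃ i, (T 3)^[i] y = p}).ncard : ℝ) ≤
      C * N ^ (Real.binEntropy (Real.log 2 / Real.log 3) / Real.log 2 - δ) ∧
    ∀ x : ℝ, 1 ≤ x →
      ({n : ℤ | |(n : ℝ)| ≤ x ∧ ∃ j, (T 3)^[j] n ∈ Function.periodicPts (T 3) ∧
        ∀ y : ℤ, |(y : ℝ)| ≤ N → ∀ i, (T 3)^[i] y ≠ (T 3)^[j] n}.ncard : ℝ) ≤
      C * x * N ^ (-(1 - Real.binEntropy (Real.log 2 / Real.log 3) / Real.log 2 + δ)) :=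
  Ab.cycles

/-- The second bound of `result` with an exponent above one gives the `3x+1` half of the
problem. -/
theorem exponent_needed (c C : ℝ) (hc : 1 < c) (h : ∀ N : ℝ, 1 ≤ N → ∀ x : ℝ, 1 ≤ x →
    ({n : ℤ | |(n : ℝ)| ≤ x ∧ ∃ j, (T 3)^[j] n ∈ Function.periodicPts (T 3) ∧
      ∀ y : ℤ, |(y : ℝ)| ≤ N → ∀ i, (T 3)^[i] y ≠ (T 3)^[j] n}.ncard : ℝ) ≤ C * x * N ^ (-c)) :
    (Function.periodicPts (T 3)).Finite :=
  Ab.cyc_pow (T 3) hc h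

/-- With `o(x / N)` as `x → ∞` in place of `C x N ^ (-c)` there are finitely many positive
periodic points. -/
theorem rate_needed (h : ∀ ε : ℝ, 0 < ε → ∃ M : ℕ, ∀ N : ℕ, M ≤ N → ∃ X : ℝ, ∀ x : ℝ, X ≤ x →
    ({n : ℤ | |(n : ℝ)| ≤ x ∧ ∃ j, (T 3)^[j] n ∈ Function.periodicPts (T 3) ∧
      ∀ y : ℤ, |(y : ℝ)| ≤ N → ∀ i, (T 3)^[i] y ≠ (T 3)^[j] n}.ncard : ℝ) ≤ ε * x / N) :
    {p ∈ Function.periodicPts (T 3) | 0 < p}.Finite :=
  Ab.cyc_rate fun ε hε => Filter.eventually_atTop.2 ((h ε hε).imp fun _ hM N hN =>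
    Filter.eventually_atTop.2 (hM N hN))

end Pool.Agent.Results.MP_dee342_nt.Basins
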