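import Pool.Agent.Lib.MP_dee342_nt.Dc.MixMain
import Pool.Agent.Lib.MP_dee342_nt.Dc.Blocks

namespace Pool.Agent.Results.MP_dee342_nt.Superlinear

open Pool.Agent.Lib.MP_dee342_nt

/-- For all `J`, `C` and `η > 0` there is `c` such that for every `m`, apart from finitely many
elements `x` of integer cycles of `3x+1` or `5x+1` (minimal period `p`), the following is impossible
for every `n ≥ η log p` such that `|x|` is within a factor `exp (n / η)` of the least absolute value
on the cycle: the first `s m ≤ p` letters of the parity word of `x` are cut into `m` pieces, each a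
factor of one word `D` with at most `C n` letters (`v k = 0`) or a copy of the letters `v k` places
earlier (`v k ≠ 0`; there are `q` of these), `J` consecutive pieces of the first kind cover `n`
letters, and `s m ≥ c (q + 1) n`. The letters after the first `s m` are arbitrary. -/
theorem result (a : ℕ) (ha : a = 3 ∨ a = 5) (J : ℕ) (C η : ℝ) (hη : 0 < η) :
    ∃ c : ℕ, ∀ m : ℕ, {x : ℤ | x ∈ Function.periodicPts (T a) ∧
      ∃ (n : ℕ) (D : List ℤ) (s v : ℕ → ℕ),
      η * Real.log (Function.minimalPeriod (T a) x) ≤ n ∧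
      (∀ i, |(x : ℝ)| ≤ Real.exp (n / η) * |(((T a)^[i] x : ℤ) : ℝ)|) ∧
      (D.length : ℝ) ≤ C * n ∧ s 0 = 0 ∧ Monotone s ∧ s m ≤ Function.minimalPeriod (T a) x ∧
      c * (((Finset.range m).filter fun k => v k ≠ 0).card + 1) * n ≤ s m ∧
      (∀ k < m, (v k = 0 → List.ofFn (parWord a (s (k + 1) - s k) ((T a)^[s k] x)) <:+: D) ∧
        (v k ≠ 0 → v k ≤ s k ∧ ∀ i, s k ≤ i → i < s (k + 1) →
          (T a)^[i] x % 2 = (T a)^[i - v k] x % 2)) ∧
      ∀ k, k + J ≤ m → (∀ j < J, v (k + j) = 0) → s k + n ≤ s (k + J)}.Finite :=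
  Dc.mixed_cycles a ha J C η hη

/-- The case without copies: `R` blocks of length `n`, each a concatenation of at most `J` factors
of `D`. -/
theorem blocks (a : ℕ) (ha : a = 3 ∨ a = 5) (J : ℕ) (C η : ℝ) (hη : 0 < η) :
    ∃ R : ℕ, {x : ℤ | x ∈ Function.periodicPts (T a) ∧ ∃ (n : ℕ) (D : List ℤ),
      η * Real.log (Function.minimalPeriod (T a) x) ≤ n ∧
      (∀ i, |(x : ℝ)| ≤ Real.exp (n / η) * |(((T a)^[i] x : ℤ) : ℝ)|) ∧
      R * n ≤ Function.minimalPeriod (T a) x ∧ (D.length : ℝ) ≤ C * n ∧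
      ∀ k < R, ∃ F : List (List ℤ), F.length ≤ J ∧ (∀ u ∈ F, u <:+: D) ∧
        F.flatten = List.ofFn (parWord a n ((T a)^[k * n] x))}.Finite := by
  obtain ⟨c, hc⟩ := result a ha (2 * (J + 1)) C η hη
  refine ⟨c, (hc (c * (J + 1))).subset ?_⟩
  rintro x ⟨hx, n, D, h0, h1, h2, h3, hF⟩
  obtain ⟨s, s0, s1, s2, s3, s4⟩ := Dc.cuts_of_lists a x D n (J + 1) c (by omega)
    fun k hk => (hF k hk).imp fun F hF => ⟨hF.1.trans (by omega), hF.2⟩
  exact ⟨hx, n, D, s, fun _ => 0, h0, h1, h3, s0, s1, s2 ▸ h2, by simp [s2],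
    fun k hk => ⟨fun _ => s3 k hk, fun h => absurd rfl h⟩, fun k hk _ => s4 k hk⟩

/-- The form with the factor complexity of the first ` (R + 1) n` letters, from the case `J = 1`. -/
theorem local_complexity (a : ℕ) (ha : a = 3 ∨ a = 5) (C η : ℝ) (hη : 0 < η) :
    ∃ R : ℕ, {x : ℤ | x ∈ Function.periodicPts (T a) ∧ ∃ n : ℕ,
      η * Real.log (Function.minimalPeriod (T a) x) ≤ n ∧
      (∀ i, |(x : ℝ)| ≤ Real.exp (n / η) * |(((T a)^[i] x : ℤ) : ℝ)|) ∧
      R * n ≤ Function.minimalPeriod (T a) x ∧ (factors a x (R * n) n : ℝ) ≤ C * n}.Finite :=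
  Dc.old_of_new a (fun C' η' h => blocks a ha 1 C' η' h) C η hη

/-- The global form: the cyclic parity word has more than `C n` factors of length `n`. -/
theorem whole_period (a : ℕ) (ha : a = 3 ∨ a = 5) (C η : ℝ) (hη : 0 < η) :
    ∃ R : ℕ, {x : ℤ | x ∈ Function.periodicPts (T a) ∧ ∃ n : ℕ,
      η * Real.log (Function.minimalPeriod (T a) x) ≤ n ∧
      R * n ≤ Function.minimalPeriod (T a) x ∧ (complexity a x n : ℝ) ≤ C * n}.Finite :=
  Gr.superlinear a ha C η hη

end Pool.Agent.Results.MP_dee342_nt.Superlinear
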